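import Pool.Agent.Helper92.RECT.Goals5
import Pool.Agent.Helper81.Sus2.PRM
import Pool.Agent.Helper65.OH2.MLS
import Pool.Agent.Helper54.OH.MLS

/-!
# Project RECT, packet RECT-PRM: the parameters are computed in linear space and admissible
-/

set_option exponentiation.threshold 50000

namespace Pool.Agent.Helper46.RECT

open Pool.Agent.Helper65.LinSpace Pool.Agent.Helper28.Ram Finset
open Pool.Agent.Helper78.Mpc hiding VV
open Pool.Agent.Helper92.RECT
open Pool.Agent.Helper65.OH (Prm dm sd2 sd2_spec LS_sd2)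
open Pool.Agent.Helper54.OH (PF LS_CR two_pow_le_CR gR_sq_le)
open Pool.Agent.Helper81.Sus2 (LSP)
open Pool.Agent.Helper81.Tok2 (gH)
open Pool.Agent.Helper28.Few (gH_pos gH_le LS_gH)
open Pool.Agent.Helper28.Long (ZL ZL_le)
open Pool.Agent.Helper28.OHS (nz cfi)
open Pool.Agent.Helper81.Sus2H88 (le01_eq_one le01_le LS_ZL)

theorem gd_cases (n D S g Z b h k N : ℕ) :
    gd n D S g Z b h k N = 0 ∨ gd n D S g Z b h k N = 1 := by
  have h2 : gd n D S g Z b h k N ≤ 1 := by
    unfold gd
    exact Nat.mul_le_mul (le01_le _ _) (Nat.mul_le_mul (le01_le _ _) (Nat.mul_le_mul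
      (le01_le _ _) (Nat.mul_le_mul (le01_le _ _) (le01_le _ _))))
  omega

theorem gd_one {n D S g Z b h k N : ℕ} (hg : gd n D S g Z b h k N = 1) :
    vb n D S b h + 1 ≤ gH n (h + 1) ∧ (vb n D S b h + 2) * (h + 1) ≤ gH n (h + 1) ∧
    Z ≤ ZL n ∧ (g + 1) * D ≤ n + 1 ∧ (k + 1) * zb n D S g b h k N ≤ n + 1 := by
  have h0 : gd n D S g Z b h k N ≠ 0 := by omega
  unfold gd at h0
  have h1 := left_ne_zero_of_mul h0
  have h2 := right_ne_zero_of_mul h0
  have h3 := left_ne_zero_of_mul h2
  have h4 := right_ne_zero_of_mul h2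
  have h5 := left_ne_zero_of_mul h4
  have h6 := right_ne_zero_of_mul h4
  have h7 := left_ne_zero_of_mul h6
  have h8 := right_ne_zero_of_mul h6
  exact ⟨le01_eq_one h1, le01_eq_one h3, le01_eq_one h5, le01_eq_one h7, le01_eq_one h8⟩

/-- The reduced bounds. -/
structure Red (n D G s g Z b h k N H B : ℕ) : Prop where
  c : G ≤ 1
  D1 : 1 ≤ D
  D2 : D ≤ ll n
  s0 : s ≤ n + 1
  g0 : g ≤ n + 1
  b0 : b ≤ n + 1
  h0 : h ≤ n + 1
  k0 : k ≤ n + 1
  v : G * vb n D s b h + 1 ≤ B
  w : (G * vb n D s b h + 2) * H ≤ B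
  z : Z ≤ ZL n
  gD : (g + 1) * D ≤ n + 1
  kz : (k + 1) * zb n D s g b h k N ≤ 13 * (n + 1)
  V : vb n D s b h ≤ 19 * (n + 1)
  s1 : s + 1 ≤ B
  BR : B ≤ gR n

theorem dg_le (x T i : ℕ) : dg x T i ≤ Nat.log 2 x + 1 := by
  have h1 : dg x T i < Nat.log 2 x + 2 := Nat.mod_lt _ (by omega)
  omega

theorem DD_pos (u x : ℕ) : 1 ≤ DD u x := le_max_left _ _

theorem DD_le (u x : ℕ) : DD u x ≤ ll (Nat.log 2 x) := by
  have h1 : 1 ≤ ll (Nat.log 2 x) := Nat.succ_pos _
  exact max_le h1 (min_le_right _ _)

theorem red (u x T : ℕ) : Red (Nat.log 2 x) (DD u x) (gg u x T) (rd u x T 0) (rd u x T 1)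
    (rd u x T 2) (rd u x T 3) (rd u x T 4) (rd u x T 5) (rd u x T 6) (hh u x T) (gb u x T) := by
  have hDD := DD_le u x
  have hD1 := DD_pos u x
  have hll := ll_le (Nat.log 2 x)
  rcases gd_cases (Nat.log 2 x) (DD u x) (dg x T 0) (dg x T 1) (dg x T 2) (dg x T 3) (dg x T 4)
    (dg x T 5) (dg x T 6) with h | h
  · have h' : gg u x T = 0 := h
    have hr : ∀ i, rd u x T i = 0 := fun i => by
      unfold rd
      rw [h', zero_mul]
    have hH : hh u x T = 0 := by
      unfold hh
      rw [h', zero_mul]
    have hB : 1 ≤ gb u x T := gH_pos _ _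
    have hBR : gb u x T ≤ gR (Nat.log 2 x) := gH_le _ _
    rw [hr 0, hr 1, hr 2, hr 3, hr 4, hr 5, hr 6, hH, h']
    refine ⟨by omega, hD1, hDD, by omega, by omega, by omega, by omega, by omega, ?_, ?_, ?_,
      ?_, ?_, ?_, by omega, hBR⟩
    · rw [zero_mul]
      omega
    · rw [mul_zero]
      omega
    · omega
    · omega
    · unfold zb
      omega
    · unfold vb
      omega
  · have h' : gg u x T = 1 := h
    obtain ⟨h1, h2, h3, h4, h5⟩ := gd_one h
    have hr : ∀ i, rd u x T i = dg x T i := fun i => by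
      unfold rd
      rw [h', one_mul]
    have hH : hh u x T = dg x T 4 + 1 := by
      unfold hh
      rw [h', one_mul]
    have hB : gb u x T = gH (Nat.log 2 x) (dg x T 4 + 1) := by
      unfold gb
      rw [hH]
    have hBR : gH (Nat.log 2 x) (dg x T 4 + 1) ≤ gR (Nat.log 2 x) := gH_le _ _
    have hR := Pool.Agent.Helper69.Ram.gR_le (Nat.log 2 x)
    rw [hr 0, hr 1, hr 2, hr 3, hr 4, hr 5, hr 6, hH, h', hB]
    refine ⟨by omega, hD1, hDD, dg_le _ _ _, dg_le _ _ _, dg_le _ _ _, dg_le _ _ _,
      dg_le _ _ _, ?_, ?_, h3, h4, ?_, ?_, ?_, hBR⟩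
    · rw [one_mul]
      exact h1
    · rw [one_mul]
      exact h2
    · omega
    · omega
    · unfold vb at h1
      omega

theorem CR_le_CS (c x : ℕ) : CR x ≤ CS c x := by
  unfold CR CS
  exact Nat.pow_le_pow_right (by omega) (by omega)

theorem two_pow_le_CS (c : ℕ) {x t : ℕ} (h : t ≤ 100 * (Nat.log 2 x + 1)) : 2 ^ t ≤ CS c x :=
  (two_pow_le_CR h).trans (CR_le_CS c x)

theorem bz_le (c x : ℕ) : 2 ^ (c * Nat.log 2 x + 2) ≤ CS c x := by
  rw [pow_add, mul_comm c, pow_mul]
  have h1 : 2 ^ Nat.log 2 x ≤ x + 2 := by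
    rcases Nat.eq_zero_or_pos x with h | h
    · rw [h]
      simp
    · exact (Nat.pow_log_le_self 2 h.ne').trans (by omega)
  have h2 : 2 ^ 2 ≤ (x + 2) ^ 2 := Nat.pow_le_pow_left (by omega) 2
  calc (2 ^ Nat.log 2 x) ^ c * 2 ^ 2 ≤ (x + 2) ^ c * (x + 2) ^ 2 :=
        Nat.mul_le_mul (Nat.pow_le_pow_left h1 c) h2
    _ = (x + 2) ^ (c + 2) := (pow_add _ _ _).symm
    _ ≤ CS c x := by
        unfold CS
        exact Nat.pow_le_pow_right (by omega) (by omega)

theorem gbgb (u x T : ℕ) : gb u x T * gb u x T ≤ 4 * (Nat.log 2 x + 1) :=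
  (Nat.mul_le_mul (red u x T).BR (red u x T).BR).trans (gR_sq_le _)

theorem VV_eq (u x T : ℕ) : VV u x T = rd u x T 0 + (rd u x T 3 + 2) * DD u x +
    (rd u x T 4 + (6 * ll (Nat.log 2 x) + 11)) := rfl

theorem pow_sg (c u x T : ℕ) :
    2 ^ (rd u x T 0 + 1 + (rd u x T 1 + 1) * DD u x) ≤ CS c x := by
  apply two_pow_le_CS
  have h1 := (red u x T).s0
  have h2 := (red u x T).gD
  omega

section

variable {α : Type} [Ctx α]

theorem LS_cfi {u : α → ℕ} (hu : LS u) (i : ℕ) : LS (fun z => cfi (u z) i) := by
  unfold cfi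
  fun_prop

theorem LS_DD {u x : α → ℕ} (hu : LS u) (hx : LS x) : LS (fun z => DD (u z) (x z)) :=
  LS.max (LS.const 1) (LS.min (LS_cfi hu 0) (LS.ll (LS.log2 hx)))

theorem LS_dg {x T : α → ℕ} (hx : LS x) (hT : LS T) (i : ℕ) :
    LS (fun z => dg (x z) (T z) i) :=
  LS.dig (LS.add (LS.log2 hx) (LS.const 2)) hT (LS.const i)

theorem LS_vb {n D S b h : α → ℕ} (hn : LS n) (hD : LS D) (hS : LS S) (hb : LS b) (hh : LS h) :
    LS (fun z => vb (n z) (D z) (S z) (b z) (h z)) := by
  have hl : LS (fun z => ll (n z)) := LS.ll hn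
  unfold vb
  fun_prop

theorem LS_zb {n D S g b h k N : α → ℕ} (hn : LS n) (hD : LS D) (hS : LS S) (hg : LS g)
    (hb : LS b) (hh : LS h) (hk : LS k) (hN : LS N) :
    LS (fun z => zb (n z) (D z) (S z) (g z) (b z) (h z) (k z) (N z)) := by
  have hl : LS (fun z => ll (n z)) := LS.ll hn
  unfold zb
  fun_prop

theorem LS_gg {u x T : α → ℕ} (hu : LS u) (hx : LS x) (hT : LS T) :
    LS (fun z => gg (u z) (x z) (T z)) := by
  have hn : LS (fun z => Nat.log 2 (x z)) := LS.log2 hx
  have hD := LS_DD hu hx
  have hd := LS_dg hx hT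
  have hgH : LS (fun z => gH (Nat.log 2 (x z)) (dg (x z) (T z) 4 + 1)) :=
    LS_gH hn (LS.add (hd 4) (LS.const 1))
  have hv := LS_vb hn hD (hd 0) (hd 3) (hd 4)
  have hz := LS_zb hn hD (hd 0) (hd 1) (hd 3) (hd 4) (hd 5) (hd 6)
  unfold gg gd
  exact LS.mul (LS.le01 (LS.add hv (LS.const 1)) hgH)
    (LS.mul (LS.le01 (LS.mul (LS.add hv (LS.const 2)) (LS.add (hd 4) (LS.const 1))) hgH)
      (LS.mul (LS.le01 (hd 2) (LS_ZL hn))
        (LS.mul (LS.le01 (LS.mul (LS.add (hd 1) (LS.const 1)) hD) (LS.add hn (LS.const 1)))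
          (LS.le01 (LS.mul (LS.add (hd 5) (LS.const 1)) hz) (LS.add hn (LS.const 1))))))

theorem LS_rd {u x T : α → ℕ} (hu : LS u) (hx : LS x) (hT : LS T) (i : ℕ) :
    LS (fun z => rd (u z) (x z) (T z) i) := LS.mul (LS_gg hu hx hT) (LS_dg hx hT i)

theorem LS_hh {u x T : α → ℕ} (hu : LS u) (hx : LS x) (hT : LS T) :
    LS (fun z => hh (u z) (x z) (T z)) :=
  LS.mul (LS_gg hu hx hT) (LS.add (LS_dg hx hT 4) (LS.const 1))

theorem LS_gb {u x T : α → ℕ} (hu : LS u) (hx : LS x) (hT : LS T) :
    LS (fun z => gb (u z) (x z) (T z)) := LS_gH (LS.log2 hx) (LS_hh hu hx hT)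

theorem LS_te {u x T : α → ℕ} (hu : LS u) (hx : LS x) (hT : LS T) :
    LS (fun z => te (u z) (x z) (T z)) :=
  LS.add (LS_rd hu hx hT 4) (LS.add (LS.mul (LS.const 4) (LS.ll (LS.log2 hx))) (LS.const 5))

theorem LS_tw {u x T : α → ℕ} (hu : LS u) (hx : LS x) (hT : LS T) :
    LS (fun z => tw (u z) (x z) (T z)) := LS.add (LS_te hu hx hT) (LS_rd hu hx hT 5)

theorem LS_pb {u x T : α → ℕ} (hu : LS u) (hx : LS x) (hT : LS T) :
    LS (fun z => pb (u z) (x z) (T z)) :=
  LS.add (LS.add (LS.add (LS_rd hu hx hT 1) (LS_rd hu hx hT 5)) (LS_rd hu hx hT 3)) (LS.const 2)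

theorem LS_VV {u x T : α → ℕ} (hu : LS u) (hx : LS x) (hT : LS T) :
    LS (fun z => VV (u z) (x z) (T z)) :=
  LS_vb (LS.log2 hx) (LS_DD hu hx) (LS_rd hu hx hT 0) (LS_rd hu hx hT 3) (LS_rd hu hx hT 4)

end

theorem te_le (u x T : ℕ) : te u x T ≤ 10 * (Nat.log 2 x + 1) := by
  have h1 := (red u x T).h0
  have h2 := ll_le (Nat.log 2 x)
  unfold te
  omega

theorem tw_le (u x T : ℕ) : tw u x T ≤ 11 * (Nat.log 2 x + 1) := by
  have h1 := te_le u x T
  have h2 := (red u x T).k0
  unfold tw
  omega

/-- Packet RECT-PRM. -/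
theorem prm : PRM_stmt := by
  refine ⟨?_, ?_, ?_, ?_, ?_, ?_, ?_⟩
  · intro α _ c u x y T hu hx hy hT
    have hn : LS (fun z => Nat.log 2 (x z)) := LS.log2 hx
    have hl : LS (fun z => ll (Nat.log 2 (x z))) := LS.ll hn
    have hr := LS_rd hu hx hT
    have hD := LS_DD hu hx
    have hCR : LS (fun z => CR (x z)) := LS_CR hx
    have hC : LS (fun z => CS c (x z)) := by
      unfold CS
      exact (LS.add hx (LS.const 2)).pow_const (8000 + 41 * c)
    have hβ : LS (fun z => 2 ^ (2 * ll (Nat.log 2 (x z)))) :=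
      LS.pow_of_le (f := fun _ => 2) (LS.const 2) (LS.mul (LS.const 2) hl) hCR fun z => by
        apply two_pow_le_CR
        have h1 := ll_le (Nat.log 2 (x z))
        omega
    have hβΛ : ∀ z, (2 ^ (2 * ll (Nat.log 2 (x z)))) ^ LW (Nat.log 2 (x z)) ≤ CS c (x z) :=
      fun z => by
        refine (beta_pow_le (x z)).trans (le_trans ?_ (CR_le_CS c (x z)))
        unfold CM CR
        exact Nat.pow_le_pow_right (by omega) (by norm_num)
    have hκm : LS (fun z => rd (u z) (x z) (T z) 3 + 2) := LS.add (hr 3) (LS.const 2)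
    have hκG : LS (fun z => rd (u z) (x z) (T z) 1 + 1) := LS.add (hr 1) (LS.const 1)
    refine
      { m := ?_
        G := ?_
        e := ?_
        ν := LS.add hl (LS.const 1)
        te := LS_te hu hx hT
        π := LS_pb hu hx hT
        S := fun _ => rfl
        D := fun _ => rfl
        pos := fun z => DD_pos _ _
        κ := fun z => ?_
        d1 := fun _ => rfl
        nm := fun z => ?_
        hθ := fun z => ?_
        hπ := fun z => ?_ }
    · exact
        { eA := LS_cfi hu 1
          eN := LS_cfi hu 2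
          eW := LS_cfi hu 3
          st := LS_cfi hu 4
          hΛ := LS.LW hn
          hβ := hβ
          hB := hCR
          x := hx
          y := hy
          S := hr 0
          κ := hκm
          D := hD
          d := LS.const 1
          o := LS.const 0
          Tc := LS.const 0
          σ := LS.add (LS.add (hr 0) (LS.const 1)) (LS.mul hκm hD)
          a := LS.add (hr 0) (LS.const 1)
          hC := hC
          b1 := fun z => by
            show 0 < 2 ^ (2 * ll (Nat.log 2 (x z)))
            positivity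
          b2 := hβΛ
          b3 := fun z => by
            apply two_pow_le_CS
            have h1 := (red (u z) (x z) (T z)).s0
            show rd (u z) (x z) (T z) 0 + 1 ≤ _
            omega
          b4 := fun z => by
            apply two_pow_le_CS
            have h1 := (red (u z) (x z) (T z)).b0
            show rd (u z) (x z) (T z) 3 + 2 ≤ _
            omega
          b5 := fun z => by
            rw [← pow_mul]
            apply two_pow_le_CS
            have h1 := (red (u z) (x z) (T z)).V
            unfold vb at h1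
            show (rd (u z) (x z) (T z) 3 + 2) * DD (u z) (x z) ≤ _
            omega
          b6 := fun z => Nat.one_pos
          b7 := fun z => by
            show 1 ^ DD (u z) (x z) ≤ _
            rw [one_pow]
            exact (Nat.one_le_two_pow (n := 0)).trans (two_pow_le_CS c (by omega))
          b8 := fun z => by
            show (2 ^ (rd (u z) (x z) (T z) 0 + 1)) ^ (1 ^ DD (u z) (x z)) ≤ _
            rw [one_pow, pow_one]
            apply two_pow_le_CS
            have h1 := (red (u z) (x z) (T z)).s0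
            omega
          b9 := fun z => by
            apply two_pow_le_CS
            have h1 := (red (u z) (x z) (T z)).V
            unfold vb at h1
            show rd (u z) (x z) (T z) 0 + 1 + (rd (u z) (x z) (T z) 3 + 2) * DD (u z) (x z) ≤ _
            omega
          b10 := fun z => by
            apply two_pow_le_CS
            have h1 := (red (u z) (x z) (T z)).s0
            show rd (u z) (x z) (T z) 0 + 1 ≤ _
            omega }
    · exact
        { eA := LS_cfi hu 1
          eN := LS_cfi hu 2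
          eW := LS_cfi hu 3
          st := LS_cfi hu 4
          hΛ := LS.LW hn
          hβ := hβ
          hB := hCR
          x := hx
          y := hy
          S := hr 0
          κ := hκG
          D := hD
          d := LS.const 1
          o := LS.const 0
          Tc := LS.const 0
          σ := LS.add (LS.add (hr 0) (LS.const 1)) (LS.mul hκG hD)
          a := LS.add (hr 0) (LS.const 1)
          hC := hC
          b1 := fun z => by
            show 0 < 2 ^ (2 * ll (Nat.log 2 (x z)))
            positivity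
          b2 := hβΛ
          b3 := fun z => by
            apply two_pow_le_CS
            have h1 := (red (u z) (x z) (T z)).s0
            show rd (u z) (x z) (T z) 0 + 1 ≤ _
            omega
          b4 := fun z => by
            apply two_pow_le_CS
            have h1 := (red (u z) (x z) (T z)).g0
            show rd (u z) (x z) (T z) 1 + 1 ≤ _
            omega
          b5 := fun z => by
            rw [← pow_mul]
            apply two_pow_le_CS
            have h1 := (red (u z) (x z) (T z)).gD
            show (rd (u z) (x z) (T z) 1 + 1) * DD (u z) (x z) ≤ _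
            omega
          b6 := fun z => Nat.one_pos
          b7 := fun z => by
            show 1 ^ DD (u z) (x z) ≤ _
            rw [one_pow]
            exact (Nat.one_le_two_pow (n := 0)).trans (two_pow_le_CS c (by omega))
          b8 := fun z => by
            show (2 ^ (rd (u z) (x z) (T z) 0 + 1)) ^ (1 ^ DD (u z) (x z)) ≤ _
            rw [one_pow, pow_one]
            apply two_pow_le_CS
            have h1 := (red (u z) (x z) (T z)).s0
            omega
          b9 := fun z => pow_sg c (u z) (x z) (T z)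
          b10 := fun z => by
            apply two_pow_le_CS
            have h1 := (red (u z) (x z) (T z)).s0
            show rd (u z) (x z) (T z) 0 + 1 ≤ _
            omega }
    · exact
        { eA := LS.const 0
          eN := LS.const 0
          eW := LS.const 0
          eK := LS.const 0
          eG := LS.const 0
          eR := LS.const 0
          eD := LS_cfi hu 5
          eX := LS_cfi hu 6
          ini := LS.const 0
          B0 := LS.const 0
          st := LS.const 0
          Λ := LS.LW hn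
          β := hβ
          B := hCR
          x := hx
          y := hy
          S := LS.const 0
          Z := hr 2
          u := LS.const 0
          V := LS.const 0
          z := LS.mul (LS.const c) hn
          hC := hC
          bβ0 := fun z => by
            show 0 < 2 ^ (2 * ll (Nat.log 2 (x z)))
            positivity
          bβ := hβΛ
          bS := fun z => by
            apply two_pow_le_CS
            show 0 + 2 ≤ _
            omega
          bZ := fun z => by
            apply two_pow_le_CS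
            have h1 := (red (u z) (x z) (T z)).z.trans (ZL_le _)
            show rd (u z) (x z) (T z) 2 + 2 ≤ _
            omega
          bV := fun z => by
            apply two_pow_le_CS
            show 0 + 2 ≤ _
            omega
          bu := fun z => by
            apply two_pow_le_CS
            show 0 ≤ _
            omega
          bz := fun z => bz_le c (x z) }
    · show 2 ≤ rd (u z) (x z) (T z) 3 + 2
      omega
    · apply two_pow_le_CS
      have h1 := (red (u z) (x z) (T z)).gD
      have h2 := (red (u z) (x z) (T z)).D2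
      have h3 := ll_le (Nat.log 2 (x z))
      show (2 * (rd (u z) (x z) (T z) 1 + 1) + 3) * DD (u z) (x z) + 1 ≤ _
      have h4 : (2 * (rd (u z) (x z) (T z) 1 + 1) + 3) * DD (u z) (x z) =
        2 * ((rd (u z) (x z) (T z) 1 + 1) * DD (u z) (x z)) + 3 * DD (u z) (x z) := by ring
      rw [h4]
      omega
    · apply two_pow_le_CS
      have h1 := (red (u z) (x z) (T z)).V
      unfold vb at h1
      show rd (u z) (x z) (T z) 0 + 1 + (3 + 2 * (ll (Nat.log 2 (x z)) + 1) +
        (rd (u z) (x z) (T z) 4 + (4 * ll (Nat.log 2 (x z)) + 5))) +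
        (rd (u z) (x z) (T z) 3 + 2) * DD (u z) (x z) ≤ _
      omega
    · apply two_pow_le_CS
      have R := red (u z) (x z) (T z)
      have h1 := R.g0
      have h2 := R.k0
      have h3 := R.b0
      show rd (u z) (x z) (T z) 1 + rd (u z) (x z) (T z) 5 + rd (u z) (x z) (T z) 3 + 2 + 1 ≤ _
      omega
  · intro α _ u x T hu hx hT
    have hgb := LS_gb hu hx hT
    have hr := LS_rd hu hx hT
    have hD := LS_DD hu hx
    refine ⟨LS_gg hu hx hT, LS_hh hu hx hT, hgb, LS_tw hu hx hT, LS_VV hu hx hT,
      LS_sd2 hgb (hr 0) hD, hr, ?_, ?_⟩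
    · refine LS.pow_of_le (f := fun _ => 2) (LS.const 2)
        (LS.add (LS_te hu hx hT) (LS.const 1)) (LS_CR hx) fun z => ?_
      apply two_pow_le_CR
      have h1 := te_le (u z) (x z) (T z)
      omega
    · refine LS.pow_of_le (f := fun _ => 2) (LS.const 2) (LS_tw hu hx hT) (LS_CR hx) fun z => ?_
      apply two_pow_le_CR
      have h1 := tw_le (u z) (x z) (T z)
      omega
  · intro α _ c u x y T hu hx hy hT
    have hn : LS (fun z => Nat.log 2 (x z)) := LS.log2 hx
    have hr := LS_rd hu hx hT
    have hD := LS_DD hu hx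
    have hC : LS (fun z => CS c (x z)) := by
      unfold CS
      exact (LS.add hx (LS.const 2)).pow_const (8000 + 41 * c)
    have h1 : LS (fun z => 2 ^ (rd (u z) (x z) (T z) 0 + 1 +
        (rd (u z) (x z) (T z) 1 + 1) * DD (u z) (x z))) :=
      LS.pow_of_le (f := fun _ => 2) (LS.const 2)
        (LS.add (LS.add (hr 0) (LS.const 1)) (LS.mul (LS.add (hr 1) (LS.const 1)) hD)) hC
        fun z => pow_sg c (u z) (x z) (T z)
    have h2 : LS (fun z => 2 ^ (c * Nat.log 2 (x z) + 1)) :=
      LS.pow_of_le (f := fun _ => 2) (LS.const 2)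
        (LS.add (LS.mul (LS.const c) hn) (LS.const 1)) hC
        fun z => (Nat.pow_le_pow_right (by norm_num) (by omega)).trans (bz_le c (x z))
    exact LS.add (LS.const 2) (LS.mul h1 h2)
  · intro u x T
    have R := red u x T
    have hs := sd2_spec _ _ (DD u x) R.s1
    refine ⟨R.c, R.v, R.w, R.BR, hs.1, hs.2, R.s1, R.z, ?_, ?_, R.D1, R.D2⟩
    · have h1 : rd u x T 6 ≤ Nat.log 2 x + 1 := by
        have h2 := dg_le x T 6
        have h3 : rd u x T 6 ≤ 1 * dg x T 6 := Nat.mul_le_mul_right _ R.c
        omega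
      have h2 : Nat.log 2 x < 2 ^ ll (Nat.log 2 x) := Nat.lt_pow_succ_log_self (by norm_num) _
      rw [pow_succ]
      omega
    · have h1 : 1 ≤ VV u x T := by
        rw [VV_eq]
        omega
      have h2 : 2 ^ 1 ≤ 2 ^ VV u x T := Nat.pow_le_pow_right (by norm_num) h1
      rw [pow_succ]
      omega
  · intro c u x y T
    show rd u x T 0 + 1 + (3 + 2 * (ll (Nat.log 2 x) + 1) +
        (rd u x T 4 + (4 * ll (Nat.log 2 x) + 5))) + (rd u x T 3 + 2) * DD u x = VV u x T
    rw [VV_eq]
    omega
  · intro c u x T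
    have R := red u x T
    have hs := sd2_spec _ _ (DD u x) R.s1
    have hgg : 2 ^ (gb u x T * gb u x T) ≤ CS c x := by
      apply two_pow_le_CS
      have h1 := gbgb u x T
      omega
    refine ⟨?_, hgg, ?_, ?_⟩
    · apply two_pow_le_CS
      have h1 := R.V
      show vb _ _ _ _ _ ≤ _
      omega
    · have h2 := (Nat.le_mul_of_pos_left _ (Nat.succ_pos _)).trans hs.2
      exact (h2.trans Nat.lt_two_pow_self.le).trans hgg
    · apply two_pow_le_CS
      have h1 := tw_le u x T
      omega
  · intro c u x y T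
    have R := red u x T
    have hz : (bs c u x y T).ZZ (tw u x T) (rd u x T 6) + 2 ≤
        2 ^ zb (Nat.log 2 x) (DD u x) (rd u x T 0) (rd u x T 1) (rd u x T 3) (rd u x T 4)
          (rd u x T 5) (rd u x T 6) := by
      have h1 : (bs c u x y T).ZZ (tw u x T) (rd u x T 6) =
          2 ^ (pb u x T + 1 + (tw u x T + (rd u x T 0 + 1 +
            (rd u x T 3 + 2) * DD u x) * rd u x T 6)) := by
        rw [pow_add, pow_add 2 (tw u x T)]
        rfl
      have h2 : zb (Nat.log 2 x) (DD u x) (rd u x T 0) (rd u x T 1) (rd u x T 3) (rd u x T 4)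
          (rd u x T 5) (rd u x T 6) = (pb u x T + 1 + (tw u x T + (rd u x T 0 + 1 +
            (rd u x T 3 + 2) * DD u x) * rd u x T 6)) + 1 := by
        unfold zb pb tw te
        ring
      rw [h1, h2, pow_succ]
      have h3 : 2 ^ 1 ≤ 2 ^ (pb u x T + 1 + (tw u x T + (rd u x T 0 + 1 +
            (rd u x T 3 + 2) * DD u x) * rd u x T 6)) :=
        Nat.pow_le_pow_right (by norm_num) (by omega)
      omega
    refine (Nat.pow_le_pow_left hz _).trans ?_
    rw [← pow_mul]
    apply two_pow_le_CS
    have h4 := R.kz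
    calc zb (Nat.log 2 x) (DD u x) (rd u x T 0) (rd u x T 1) (rd u x T 3) (rd u x T 4)
          (rd u x T 5) (rd u x T 6) * (4 * (rd u x T 5 + 1)) =
        4 * ((rd u x T 5 + 1) * zb (Nat.log 2 x) (DD u x) (rd u x T 0) (rd u x T 1)
          (rd u x T 3) (rd u x T 4) (rd u x T 5) (rd u x T 6)) := by ring
      _ ≤ 4 * (13 * (Nat.log 2 x + 1)) := Nat.mul_le_mul_left _ h4
      _ ≤ 100 * (Nat.log 2 x + 1) := by omega

end Pool.Agent.Helper46.RECT
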